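import Pool.Agent.Helper67.LPath.Sub

/-!
Piece L1d (MP_fc92c5): a core path between two tips expands to a path of the subdivided
graph with tails.
-/

namespace Pool.Agent.Helper23.LPath

open Pool.Agent.Helper67.LPath

/-- the points of the core edge `a b`, from `a` on, without the last one -/
def sgf (W : ℕ → ℕ → ℕ) (a b s : ℕ) : Pt :=
  if a < b then pt W a b s else pt W b a (W a b - s)

def seg (W : ℕ → ℕ → ℕ) (a b : ℕ) : List Pt :=
  (List.range (W a b)).map (sgf W a b)

/-- the expansion of a core path -/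
def ex (W : ℕ → ℕ → ℕ) : List ℕ → List Pt
  | [] => []
  | [a] => [(a, a, 0)]
  | a :: b :: t => seg W a b ++ ex W (b :: t)

/-- the tail -/
def tl (T t : ℕ) : List Pt := (List.range T).map (fun i => (t, t, i + 1))

theorem pt_zero (W : ℕ → ℕ → ℕ) (a b : ℕ) : pt W a b 0 = (a, a, 0) := by
  unfold pt
  rw [if_pos rfl]

theorem pt_top {W : ℕ → ℕ → ℕ} {a b s : ℕ} (h0 : s ≠ 0) (h : s = W a b) :
    pt W a b s = (b, b, 0) := by
  unfold pt
  rw [if_neg h0, if_pos h]

theorem pt_int {W : ℕ → ℕ → ℕ} {a b s : ℕ} (h0 : s ≠ 0) (h : s ≠ W a b) :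
    pt W a b s = (a, b, s) := by
  unfold pt
  rw [if_neg h0, if_neg h]

section

variable {n : ℕ} {W : ℕ → ℕ → ℕ} (hW : Core n W) {a b : ℕ}

include hW

theorem ne_of_pos (h : 0 < W a b) : a ≠ b := by
  rintro rfl
  rw [hW.irrefl] at h
  omega

theorem sgf_zero (h : 0 < W a b) : sgf W a b 0 = (a, a, 0) := by
  unfold sgf
  have := ne_of_pos hW h
  have hs := hW.symm a b
  split_ifs with hab
  · exact pt_zero W a b
  · exact pt_top (by omega) (by omega)

theorem sgf_last (h : 0 < W a b) : sgf W a b (W a b) = (b, b, 0) := by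
  unfold sgf
  have := ne_of_pos hW h
  have hs := hW.symm a b
  split_ifs with hab
  · exact pt_top (by omega) rfl
  · rw [Nat.sub_self]
    exact pt_zero W b a

theorem sgf_int {s : ℕ} (h0 : s ≠ 0) (h1 : s < W a b) :
    ∃ c d r, ((c = a ∧ d = b ∧ r = s) ∨ (c = b ∧ d = a ∧ r = W a b - s)) ∧ c < d ∧ 0 < r ∧
      sgf W a b s = (c, d, r) := by
  unfold sgf
  have := ne_of_pos hW (a := a) (b := b) (by omega)
  have hs := hW.symm a b
  split_ifs with hab
  · exact ⟨a, b, s, Or.inl ⟨rfl, rfl, rfl⟩, hab, by omega, pt_int (by omega) (by omega)⟩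
  · exact ⟨b, a, W a b - s, Or.inr ⟨rfl, rfl, rfl⟩, by omega, by omega,
      pt_int (by omega) (by omega)⟩

theorem sgf_adj (tips : List ℕ) (T : ℕ) {s : ℕ} (h : s < W a b) :
    SAdj W tips T (sgf W a b s) (sgf W a b (s + 1)) := by
  unfold sgf
  have := ne_of_pos hW (a := a) (b := b) (by omega)
  have hs := hW.symm a b
  split_ifs with hab
  · exact Or.inl (Or.inl ⟨a, b, s, hab, h, rfl, rfl⟩)
  · refine Or.inr (Or.inl ⟨b, a, W a b - (s + 1), by omega, by omega, rfl, ?_⟩)
    congr 1
    omega

theorem seg_chain (tips : List ℕ) (T : ℕ) (h : 0 < W a b) :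
    (seg W a b ++ [(b, b, 0)]).IsChain (SAdj W tips T) := by
  have he : seg W a b ++ [(b, b, 0)] = (List.range (W a b + 1)).map (sgf W a b) := by
    rw [List.range_succ, List.map_append, List.map_singleton, sgf_last hW h]
    rfl
  rw [he, List.isChain_iff_getElem]
  intro i hi
  simp only [List.length_map, List.length_range] at hi
  simp only [List.getElem_map, List.getElem_range]
  exact sgf_adj hW tips T (by omega)

omit hW in
theorem seg_length : (seg W a b).length = W a b := by
  unfold seg
  rw [List.length_map, List.length_range]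

theorem mem_seg {x : Pt} (hx : x ∈ seg W a b) :
    x = (a, a, 0) ∨ ∃ c d r, ((c = a ∧ d = b) ∨ (c = b ∧ d = a)) ∧ c < d ∧ 0 < r ∧
      x = (c, d, r) := by
  unfold seg at hx
  rw [List.mem_map] at hx
  obtain ⟨s, hs, rfl⟩ := hx
  rw [List.mem_range] at hs
  by_cases h0 : s = 0
  · subst h0
    exact Or.inl (sgf_zero hW hs)
  · obtain ⟨c, d, r, h1, h2, h3, h4⟩ := sgf_int hW h0 hs
    exact Or.inr ⟨c, d, r, by rcases h1 with ⟨h, h', -⟩ | ⟨h, h', -⟩ <;> simp [h, h'], h2, h3, h4⟩

theorem seg_head (h : 0 < W a b) : (seg W a b).head? = some (a, a, 0) := by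
  unfold seg
  obtain ⟨k, hk⟩ : ∃ k, W a b = k + 1 := ⟨W a b - 1, by omega⟩
  rw [hk, List.range_succ_eq_map, List.map_cons, List.head?_cons, sgf_zero hW h]

theorem seg_nodup : (seg W a b).Nodup := by
  unfold seg
  refine List.Nodup.map_on ?_ List.nodup_range
  intro s hs s' hs' he
  rw [List.mem_range] at hs hs'
  by_cases h0 : s = 0
  · by_cases h0' : s' = 0
    · omega
    · obtain ⟨c, d, r, h1, h2, h3, h4⟩ := sgf_int hW h0' hs'
      rw [h4, h0, sgf_zero hW (by omega)] at he
      simp only [Prod.mk.injEq] at he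
      omega
  · obtain ⟨c, d, r, h1, h2, h3, h4⟩ := sgf_int hW h0 hs
    by_cases h0' : s' = 0
    · rw [h4, h0', sgf_zero hW (by omega)] at he
      simp only [Prod.mk.injEq] at he
      omega
    · obtain ⟨c', d', r', h1', h2', h3', h4'⟩ := sgf_int hW h0' hs'
      rw [h4, h4'] at he
      simp only [Prod.mk.injEq] at he
      omega

omit hW in
theorem ex_length (l : List ℕ) : l ≠ [] → (ex W l).length = wt W l + 1 := by
  induction l with
  | nil => exact fun h => absurd rfl h
  | cons a l ih =>
    intro _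
    cases l with
    | nil => rfl
    | cons b t =>
      rw [ex, List.length_append, seg_length, ih (List.cons_ne_nil _ _), wt]
      omega

theorem ex_head {t : List ℕ} (hc : (a :: t).IsChain (fun a b => 0 < W a b)) :
    (ex W (a :: t)).head? = some (a, a, 0) := by
  cases t with
  | nil => rfl
  | cons b t =>
    rw [ex, List.head?_append, seg_head hW (List.isChain_cons_cons.1 hc).1]
    rfl

omit hW in
theorem ex_last (l : List ℕ) : l.IsChain (fun a b => 0 < W a b) → ∀ v, l.getLast? = some v →
    (ex W l).getLast? = some (v, v, 0) := by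
  induction l with
  | nil => intro _ v hv; simp at hv
  | cons a l ih =>
    intro hc v hv
    cases l with
    | nil =>
      simp only [List.getLast?_singleton, Option.some.injEq] at hv
      subst hv
      rfl
    | cons b t =>
      rw [List.getLast?_cons_cons] at hv
      rw [ex, List.getLast?_append, ih (List.isChain_cons_cons.1 hc).2 v hv]
      rfl

theorem mem_ex (l : List ℕ) : ∀ x ∈ ex W l,
    (∃ v ∈ l, x = (v, v, 0)) ∨ ∃ c ∈ l, ∃ d ∈ l, ∃ r, c < d ∧ 0 < r ∧ x = (c, d, r) := by
  induction l with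
  | nil => intro x hx; simp [ex] at hx
  | cons a l ih =>
    intro x hx
    cases l with
    | nil =>
      simp only [ex, List.mem_singleton] at hx
      exact Or.inl ⟨a, by simp, hx⟩
    | cons b t =>
      rw [ex, List.mem_append] at hx
      rcases hx with hx | hx
      · rcases mem_seg hW hx with rfl | ⟨c, d, r, h1, h2, h3, rfl⟩
        · exact Or.inl ⟨a, by simp, rfl⟩
        · refine Or.inr ⟨c, ?_, d, ?_, r, h2, h3, rfl⟩
          · rcases h1 with ⟨rfl, rfl⟩ | ⟨rfl, rfl⟩ <;> simp
          · rcases h1 with ⟨rfl, rfl⟩ | ⟨rfl, rfl⟩ <;> simp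
      · rcases ih x hx with ⟨v, hv, rfl⟩ | ⟨c, hc, d, hd, r, h1, h2, rfl⟩
        · exact Or.inl ⟨v, List.mem_cons_of_mem _ hv, rfl⟩
        · exact Or.inr ⟨c, List.mem_cons_of_mem _ hc, d, List.mem_cons_of_mem _ hd, r, h1, h2,
            rfl⟩

theorem mem_ex_core (l : List ℕ) : l.IsChain (fun a b => 0 < W a b) → ∀ v ∈ l,
    ((v, v, 0) : Pt) ∈ ex W l := by
  induction l with
  | nil => intro _ v hv; simp at hv
  | cons a l ih =>
    intro hc v hv
    rw [List.mem_cons] at hv
    rcases hv with rfl | hv
    · exact List.mem_of_mem_head? (by rw [ex_head hW hc]; rfl)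
    · cases l with
      | nil => simp at hv
      | cons b t =>
        rw [ex, List.mem_append]
        exact Or.inr (ih (List.isChain_cons_cons.1 hc).2 v hv)

theorem ex_nodup (l : List ℕ) : l.Nodup → (ex W l).Nodup := by
  induction l with
  | nil => intro _; simp [ex]
  | cons a l ih =>
    intro hn
    cases l with
    | nil => simp [ex]
    | cons b t =>
      rw [List.nodup_cons] at hn
      rw [ex, List.nodup_append']
      refine ⟨seg_nodup hW, ih hn.2, ?_⟩
      intro x hx hx'
      rcases mem_seg hW hx with rfl | ⟨c, d, r, h1, h2, h3, rfl⟩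
      · rcases mem_ex hW _ _ hx' with ⟨v, hv, he⟩ | ⟨c, hc, d, hd, r, h1, h2, he⟩
        · simp only [Prod.mk.injEq] at he
          rw [he.1] at hn
          exact hn.1 hv
        · simp only [Prod.mk.injEq] at he
          omega
      · rcases mem_ex hW _ _ hx' with ⟨v, hv, he⟩ | ⟨c', hc, d', hd, r', h1', h2', he⟩
        · simp only [Prod.mk.injEq] at he
          omega
        · simp only [Prod.mk.injEq] at he
          obtain ⟨rfl, rfl, rfl⟩ := he
          rcases h1 with ⟨rfl, rfl⟩ | ⟨rfl, rfl⟩
          · exact hn.1 hc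
          · exact hn.1 hd

theorem ex_chain (tips : List ℕ) (T : ℕ) (l : List ℕ) :
    l.IsChain (fun a b => 0 < W a b) → (ex W l).IsChain (SAdj W tips T) := by
  induction l with
  | nil => intro _; simp [ex]
  | cons a l ih =>
    intro hc
    cases l with
    | nil => simp [ex]
    | cons b t =>
      have h1 := (List.isChain_cons_cons.1 hc).1
      have h2 := (List.isChain_cons_cons.1 hc).2
      have h3 := seg_chain hW tips T h1
      rw [List.isChain_append] at h3
      rw [ex, List.isChain_append]
      refine ⟨h3.1, ih h2, ?_⟩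
      intro x hx y hy
      rw [ex_head hW h2] at hy
      exact h3.2.2 x hx y hy

end

theorem tl_chain {W : ℕ → ℕ → ℕ} {tips : List ℕ} {T t : ℕ} (ht : t ∈ tips) :
    ((t, t, 0) :: tl T t).IsChain (SAdj W tips T) := by
  have he : (t, t, 0) :: tl T t = (List.range (T + 1)).map (fun i => ((t, t, i) : Pt)) := by
    rw [List.range_succ_eq_map, List.map_cons, List.map_map]
    rfl
  rw [he, List.isChain_iff_getElem]
  intro i hi
  simp only [List.length_map, List.length_range] at hi
  simp only [List.getElem_map, List.getElem_range]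
  exact Or.inl (Or.inr ⟨t, ht, i, by omega, rfl, rfl⟩)

theorem mem_tl {T t : ℕ} {x : Pt} (hx : x ∈ tl T t) : ∃ r, 0 < r ∧ x = (t, t, r) := by
  unfold tl at hx
  rw [List.mem_map] at hx
  obtain ⟨i, -, rfl⟩ := hx
  exact ⟨i + 1, by omega, rfl⟩

theorem tl_nodup {T t : ℕ} : (tl T t).Nodup := by
  unfold tl
  refine List.Nodup.map_on ?_ List.nodup_range
  intro s _ s' _ he
  simp only [Prod.mk.injEq] at he
  omega

/-- L1d: a core path between two tips expands to a path of the subdivided graph. -/
theorem expand (n : ℕ) (W : ℕ → ℕ → ℕ) (hW : Core n W) (tips : List ℕ) (T : ℕ)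
    (l : List ℕ) (h : TipPath W tips l) :
    ∃ Q : List Pt, IsPathL (G0 W tips T) Q ∧ Q.length = wt W l + 2 * T + 1 ∧
      (∀ x ∈ Q, x.1 ∈ l) ∧ (∀ v ∈ l, ((v, v, 0) : Pt) ∈ Q) := by
  obtain ⟨⟨hn, hc⟩, s, hs, t, ht, hst, hhead, hlast⟩ := h
  have hl0 : l ≠ [] := by
    rintro rfl
    simp at hhead
  have hhd : (ex W l).head? = some (s, s, 0) := by
    cases l with
    | nil => exact absurd rfl hl0
    | cons a l =>
      simp only [List.head?_cons, Option.some.injEq] at hhead
      subst hhead
      exact ex_head hW hc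
  have hlt := ex_last l hc t hlast
  have hsl : s ∈ l := List.mem_of_mem_head? (by rw [hhead]; rfl)
  have htl : t ∈ l := List.mem_of_getLast? hlast
  have hlen := ex_length (W := W) l hl0
  refine ⟨(tl T s).reverse ++ (ex W l ++ tl T t), ⟨?_, ?_, ?_⟩, ?_, ?_, ?_⟩
  · intro he
    have : (ex W l).length = 0 := by
      simp only [List.append_eq_nil_iff] at he
      rw [he.2.1]
      rfl
    omega
  · rw [List.nodup_append']
    refine ⟨List.nodup_reverse.2 tl_nodup, ?_, ?_⟩
    · rw [List.nodup_append']
      refine ⟨ex_nodup hW l hn, tl_nodup, ?_⟩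
      intro x hx hx'
      obtain ⟨r, hr, rfl⟩ := mem_tl hx'
      rcases mem_ex hW _ _ hx with ⟨v, hv, he⟩ | ⟨c, hc, d, hd, r, h1, h2, he⟩
      · simp only [Prod.mk.injEq] at he
        omega
      · simp only [Prod.mk.injEq] at he
        omega
    · intro x hx hx'
      rw [List.mem_reverse] at hx
      obtain ⟨r, hr, rfl⟩ := mem_tl hx
      rw [List.mem_append] at hx'
      rcases hx' with hx' | hx'
      · rcases mem_ex hW _ _ hx' with ⟨v, hv, he⟩ | ⟨c, hc, d, hd, r, h1, h2, he⟩
        · simp only [Prod.mk.injEq] at he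
          omega
        · simp only [Prod.mk.injEq] at he
          omega
      · obtain ⟨r', hr', he⟩ := mem_tl hx'
        simp only [Prod.mk.injEq] at he
        exact hst he.1
  · have hadj : (G0 W tips T).Adj = SAdj W tips T := rfl
    rw [hadj, List.isChain_append, List.isChain_append]
    have h1 := tl_chain (W := W) (T := T) ht
    have h2 := tl_chain (W := W) (T := T) hs
    rw [List.isChain_cons] at h1 h2
    refine ⟨?_, ⟨ex_chain hW tips T l hc, h1.2, ?_⟩, ?_⟩
    · rw [List.isChain_reverse]
      refine h2.2.imp ?_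
      intro x y hxy
      exact hxy.symm
    · intro x hx y hy
      rw [hlt] at hx
      simp only [Option.mem_def, Option.some.injEq] at hx
      subst hx
      exact h1.1 y hy
    · intro x hx y hy
      rw [List.getLast?_reverse] at hx
      rw [List.head?_append, hhd] at hy
      simp only [Option.mem_def, Option.some_or, Option.some.injEq] at hy
      subst hy
      exact (h2.1 x hx).symm
  · rw [List.length_append, List.length_reverse, List.length_append, hlen]
    unfold tl
    rw [List.length_map, List.length_map, List.length_range]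
    omega
  · intro x hx
    rw [List.mem_append, List.mem_reverse, List.mem_append] at hx
    rcases hx with hx | hx | hx
    · obtain ⟨r, hr, rfl⟩ := mem_tl hx
      exact hsl
    · rcases mem_ex hW _ _ hx with ⟨v, hv, rfl⟩ | ⟨c, hc, d, hd, r, h1, h2, rfl⟩
      · exact hv
      · exact hc
    · obtain ⟨r, hr, rfl⟩ := mem_tl hx
      exact htl
  · intro v hv
    rw [List.mem_append, List.mem_append]
    exact Or.inr (Or.inl (mem_ex_core hW l hc v hv))

end Pool.Agent.Helper23.LPath
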